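import Pool.Agent.H6.GS2.Targets
import Pool.Agent.H6.GS2.Bas
import Pool.Agent.H78.N4.LEVB

/-!
# Theorem (G), row BVT: the test of a group
-/

set_option autoImplicit false

open Finset Pool.Agent.H6.N4D Pool.Agent.H93 Pool.Agent.H93.GS Pool.Agent.H6.GS2

namespace Pool.Agent.H55.GSW

theorem BVT_ee_norm (x y : ℝ) : ‖ee x - ee y‖ ≤ 2 * Real.pi * |x - y| := by
  have h : ee x = ee (x - y) * ee y := by rw [← ee_add, sub_add_cancel]
  rw [h, show ee (x - y) * ee y - ee y = (ee (x - y) - 1) * ee y by ring, norm_mul, norm_ee,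
    mul_one]
  exact norm_ee_sub_one_le _

theorem pf_BVT : T_BVT := by
  intro lam q N n γ s c c' hl hq hN
  have hN1 : 1 ≤ N := hq.trans hN
  have hN0 : (0 : ℝ) < N := by exact_mod_cast hN1
  have hpi := Real.pi_lt_d2
  set y : ℕ → ℝ := fun m => s / N * (m - (n + (N : ℝ) / 2)) with hy
  set v : ℕ → ℂ := fun m => (starRingEnd ℂ) (ctr N n c s * ee (y m) - c') with hv
  set B : ℝ := ‖ctr N n c s - c'‖ + 7 * ‖c‖ * |s| with hB
  have hB0 : 0 ≤ B := by positivity
  have hctr : ‖ctr N n c s‖ = ‖c‖ := by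
    unfold ctr
    rw [norm_mul, norm_ee, mul_one]
  -- the terms
  have hterm : ∀ m : ℕ, (EB.D q m : ℂ) * lam m * (starRingEnd ℂ) (c * ee ((γ + s / N) * m) -
      c' * ee (γ * m)) = (lam m : ℂ) * (EB.D q m : ℂ) * ee (-(γ * m)) * v m := by
    intro m
    have e1 : c * ee ((γ + s / N) * m) - c' * ee (γ * m) =
        ee (γ * m) * (ctr N n c s * ee (y m) - c') := by
      have e2 : ee ((γ + s / N) * m) = ee (γ * m) * (ee (s / N * (n + (N : ℝ) / 2)) *
          ee (y m)) := by
        rw [← ee_add, ← ee_add]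
        congr 1
        rw [hy]
        ring
      rw [e2]
      unfold ctr
      ring
    rw [e1, map_mul, conj_ee]
    ring
  -- the bounds
  have hbd : ∀ m ∈ Ioc n (n + N), ‖v m‖ ≤ B := by
    intro m hm
    rw [mem_Ioc] at hm
    have h1 : (n : ℝ) ≤ m := by exact_mod_cast hm.1.le
    have h2 : (m : ℝ) ≤ n + N := by exact_mod_cast hm.2
    have h3 : |(m : ℝ) - (n + (N : ℝ) / 2)| ≤ N / 2 := by
      rw [abs_le]
      constructor <;> linarith
    have h4 : |y m| ≤ |s| / 2 := by
      rw [hy]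
      simp only
      rw [abs_mul, abs_div, abs_of_pos hN0]
      calc |s| / N * |(m : ℝ) - (n + (N : ℝ) / 2)| ≤ |s| / N * (N / 2) := by gcongr
        _ = |s| / 2 := by field_simp
    have h5 : ‖ee (y m) - 1‖ ≤ 7 * |s| := by
      refine (norm_ee_sub_one_le _).trans ?_
      have := abs_nonneg s
      calc 2 * Real.pi * |y m| ≤ 2 * Real.pi * (|s| / 2) := by gcongr
        _ ≤ 7 * |s| := by nlinarith
    rw [hv]
    simp only
    rw [Complex.norm_conj]
    calc ‖ctr N n c s * ee (y m) - c'‖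
        = ‖(ctr N n c s - c') + ctr N n c s * (ee (y m) - 1)‖ := by
          congr 1
          ring
      _ ≤ ‖ctr N n c s - c'‖ + ‖c‖ * ‖ee (y m) - 1‖ := by
          refine (norm_add_le _ _).trans ?_
          rw [norm_mul, hctr]
      _ ≤ ‖ctr N n c s - c'‖ + ‖c‖ * (7 * |s|) := by gcongr
      _ = B := by rw [hB]; ring
  have hdiff : ∀ m : ℕ, ‖v (m + 1) - v m‖ ≤ 7 * ‖c‖ * |s| / N := by
    intro m
    rw [hv]
    simp only
    rw [← map_sub, Complex.norm_conj,
      show ctr N n c s * ee (y (m + 1)) - c' - (ctr N n c s * ee (y m) - c') =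
        ctr N n c s * (ee (y (m + 1)) - ee (y m)) by ring, norm_mul, hctr]
    have h1 := BVT_ee_norm (y (m + 1)) (y m)
    have h2 : y (m + 1) - y m = s / N := by
      rw [hy]
      push_cast
      ring
    rw [h2, abs_div, abs_of_pos hN0] at h1
    calc ‖c‖ * ‖ee (y (m + 1)) - ee (y m)‖ ≤ ‖c‖ * (2 * Real.pi * (|s| / N)) := by gcongr
      _ ≤ ‖c‖ * (7 * (|s| / N)) := by
          have : 0 ≤ |s| / (N : ℝ) := by positivity
          gcongr
          linarith
      _ = _ := by ring
  have htv : ∑ m ∈ Ioo n (n + N), ‖v (m + 1) - v m‖ ≤ B := by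
    calc ∑ m ∈ Ioo n (n + N), ‖v (m + 1) - v m‖
        ≤ ∑ _m ∈ Ioo n (n + N), 7 * ‖c‖ * |s| / N := sum_le_sum fun m _ => hdiff m
      _ = ((Ioo n (n + N)).card : ℝ) * (7 * ‖c‖ * |s| / N) := by
          rw [sum_const, nsmul_eq_mul]
      _ ≤ (N : ℝ) * (7 * ‖c‖ * |s| / N) := by
          have h1 : (Ioo n (n + N)).card ≤ N := by
            rw [Nat.card_Ioo]
            omega
          have h2 : ((Ioo n (n + N)).card : ℝ) ≤ N := by exact_mod_cast h1
          gcongr
      _ = 7 * ‖c‖ * |s| := by field_simp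
      _ ≤ B := by
          have := norm_nonneg (ctr N n c s - c')
          rw [hB]
          linarith
  -- the sum
  have hsum : ac 1 N n (fun m => (EB.D q m : ℂ) * lam m * (starRingEnd ℂ)
      (c * ee ((γ + s / N) * m) - c' * ee (γ * m))) =
      (∑ m ∈ Ioc n (n + N), (lam m : ℂ) * (EB.D q m : ℂ) * ee (-(γ * m)) * v m) / N := by
    unfold ac
    rw [Nat.cast_one, mul_one]
    congr 1
    rw [filter_true_of_mem fun m _ => one_dvd m]
    exact sum_congr rfl fun m _ => hterm m
  rw [hsum]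
  rcases hB0.eq_or_lt with h0 | h0
  · rw [← h0, zero_mul]
    have h1 : ∑ m ∈ Ioc n (n + N), (lam m : ℂ) * (EB.D q m : ℂ) * ee (-(γ * m)) * v m = 0 := by
      refine sum_eq_zero fun m hm => ?_
      have h2 : v m = 0 := by
        have := hbd m hm
        rw [← h0] at this
        exact norm_le_zero_iff.1 this
      rw [h2, mul_zero]
    rw [h1, zero_div, norm_zero]
  · have hBV : EB.BV N n (fun m => v m / B) := by
      refine ⟨fun m hm => ?_, ?_⟩
      · rw [norm_div, Complex.norm_real, Real.norm_of_nonneg hB0, div_le_one h0]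
        exact hbd m hm
      · have e1 : ∀ m, ‖v (m + 1) / B - v m / B‖ = ‖v (m + 1) - v m‖ / B := by
          intro m
          rw [← sub_div, norm_div, Complex.norm_real, Real.norm_of_nonneg hB0]
        simp only [e1]
        rw [← sum_div, div_le_iff₀ h0]
        linarith
    have hzz : EB.zz lam q N n γ (fun m => v m / B) ≤ zA lam q N n γ := by
      refine le_csSup ⟨3, ?_⟩ ⟨_, hBV, rfl⟩
      rintro x ⟨g, hg, rfl⟩
      exact Pool.Agent.H78.N4.LEV.zz_le lam hl q N n hq hN γ g hg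
    have hBc : (B : ℂ) ≠ 0 := by exact_mod_cast h0.ne'
    have e2 : ‖(∑ m ∈ Ioc n (n + N), (lam m : ℂ) * (EB.D q m : ℂ) * ee (-(γ * m)) * v m) / N‖ =
        B * EB.zz lam q N n γ (fun m => v m / B) := by
      unfold EB.zz
      rw [← Real.norm_of_nonneg hB0, ← Complex.norm_real, ← norm_mul]
      congr 1
      rw [← mul_div_assoc, mul_sum]
      congr 1
      refine sum_congr rfl fun m _ => ?_
      rw [Complex.norm_real, Real.norm_of_nonneg hB0]
      field_simp
    rw [e2]
    gcongr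

end Pool.Agent.H55.GSW
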